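import Pool.Agent.H51.OW.Frg
import Pool.Agent.H88.OW.Dic
import Pool.Agent.H73.OW.Gdx
import Pool.Agent.H82.S3.Sgi

/-!
# [H51 OW GOOD] good quasi Lie functionals and survivors (MP_b39724_nt, theorem OW, S1)

* `frg_sp`: `Frg G q m (Pa.q m)` for `S = Sp Pa (Px c)`: a quasi Lie functional with `B k k u u = 0` (`2 k = m + 1`) is good.
* `gd_sv`: `x` good: `Sv (etX f x)` for every `f` with `Ok`. `nxx_gd`: `NXX x = 0`. `sv_gd`: the converse of `gd_sv` for rich `f`.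
* `good_sv`, `nxx_good`: from the condition on the words.
-/

set_option autoImplicit false

open scoped NumberField commutatorElement
open IsDedekindDomain
open scoped Classical

noncomputable section

namespace H51.OW

open H63.MA H38.BB H38.BG H57.PC H57.BRA H77.WD H77.WE H77.PC3 H35.CF H35.UB H77.S3 H71.S3 H1.S3
  H73.S3 H88.OW H82.S3 Pool.Agent.H61.Tu

attribute [local instance 50] Fintype.ofFinite

section gen

variable {K : Type} [Field K] [NumberField K] {Ω : Type} [Field Ω] [Algebra K Ω]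
  {p N : ℕ} {ζ : K} {D : RD0 K p ζ} {Q : DP K Ω} {A : GS D Ω} {P : Type} [Group P]
  {c : CL p N P} {S : Type} [Group S] [MulDistribMulAction P S] {q m ep : ℕ}

/-- the label of a letter of the configuration -/
theorem y_lab (G : SG c S) (B : SD D Q A) (X : FD A P S) (W : WF A) (T : ℝ) (Zc : Finset (Pl K))
    (hZE : Disjoint Zc X.E) (f : Pl K → Option (Px c)) {v : Pl K} (hv : v ∈ Zc) {s : Px c}
    (hs : f v = some s) : (adf G B X W T Zc f).y (Sum.inl v) = G.y s := by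
  have h3 : v ∉ X.E := fun h2 => Finset.disjoint_left.1 hZE hv h2
  have h4 : (adf G B X W T Zc f).t (Sum.inl v) = il (G.y s) := by
    show (if v ∈ X.E then (⟨X.sv v, X.φ (W.L.t v)⟩ : SP S P) else
      (if v ∈ Zc then f v else none).elim 1 fun s => il (G.y s)) = _
    rw [if_neg h3, if_pos hv, hs]
    rfl
  unfold AD.y
  rw [h4]
  rfl

omit [MulDistribMulAction P S] in
theorem xf_lab {g : ℕ} (x : Px c → Du S q m) (f : Pl K → Option (Px c)) {v : Pl K} {s : Px c}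
    (hs : f v = some s) : xf (g := g) x f (Sum.inl v) = x s := by
  show (f v).elim 0 x = x s
  rw [hs]
  rfl

/-- THEOREM: a good quasi Lie functional gives survivors -/
theorem gd_sv (G : SG c S) (B : SD D Q A)
    (X : FD A P S) (W : WF A) {k Mw c₀ : ℕ} (T : ℝ) (Zc : Finset (Pl K))
    (hZE : Disjoint Zc X.E) (hXo : X.Ok G B W)
    (x : (Px c → Du S q m) × (P → Du S q (m + 1)))
    (h : H73.OW.Gd G.y (Rh X W) x.1 x.2)
    (f : Pl K → Option (Px c)) (hok : (adf G B X W T Zc f).Ok p k Mw q c₀ G.Pi) :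
    (adf G B X W T Zc f).Sv (etX G B X W T Zc f x) := by
  obtain ⟨lam, h1, h2⟩ := h
  have hph : ∀ w, (adf G B X W T Zc f).ph w ∈ Rh X W := by
    intro w
    rw [ph_hat G B X W hXo T Zc f]
    exact ⟨w, rfl⟩
  have hk : (fun w => x.2 ((adf G B X W T Zc f).ph w)) =
      fun w => (adf G B X W T Zc f).ph w • lam - lam := funext fun w => h2 _ (hph w)
  refine ⟨lam, fun j hj z => ?_, fun a b => ?_, fun j hj => ?_, fun j hj => ?_⟩
  · obtain ⟨j, hjf⟩ := j
    unfold etX AD.eX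
    rw [if_pos hj]
    rcases j with v | i
    · have hv : v ∈ sp Zc f ∧ PPc X W T v := hj
      obtain ⟨hvZ, hvn⟩ := mem_sp.1 hv.1
      obtain ⟨s, hs⟩ := Option.ne_none_iff_exists'.1 hvn
      show (xf (g := A.g) x.1 f (Sum.inl v)).ap z =
        -lam.ap (br m ((adf G B X W T Zc f).y (Sum.inl v)) z)
      rw [y_lab G B X W T Zc hZE f hvZ hs, xf_lab x.1 f hs]
      exact h1 s z
    · exact hj.elim
  · show (adf G B X W T Zc f).ph (a * b) • lam - lam = (adf G B X W T Zc f).ph a • lam - lam +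
      (adf G B X W T Zc f).ph a • ((adf G B X W T Zc f).ph b • lam - lam)
    rw [map_mul, mul_smul, smul_sub]
    abel
  · have e1 : (adf G B X W T Zc f).ph (FreeGroup.of j) = 1 := by
      have h3 : (adf G B X W T Zc f).ph (FreeGroup.of j) = ((adf G B X W T Zc f).t j).right := by
        unfold AD.ph
        rw [FreeGroup.lift_apply_of]
      rw [h3]
      by_cases hjf : j ∈ (adf G B X W T Zc f).Jf
      · have h4 : (adf G B X W T Zc f).pp j := by
          by_contra h5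
          exact hj ⟨hjf, h5⟩
        rw [hok.pt j hjf h4]
        rfl
      · rw [hok.t1 j hjf]
        rfl
    show (adf G B X W T Zc f).ph (FreeGroup.of j) • lam - lam = 0
    rw [e1, one_smul, sub_self]
  · unfold etX AD.eX
    rw [if_neg hj, hk]

/-- THEOREM: a good quasi Lie functional contributes nothing -/
theorem nxx_gd [Fintype P] [NeZero q] (G : SG c S)
    [Fintype S] (B : SD D Q A)
    (X : FD A P S) (W : WF A) {k Mw c₀ : ℕ} (T : ℝ) (Zc : Finset (Pl K))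
    (hZE : Disjoint Zc X.E) (hXo : X.Ok G B W)
    (x : (Px c → Du S q m) × (P → Du S q (m + 1)))
    (h : H73.OW.Gd G.y (Rh X W) x.1 x.2)
    (wt : (Pl K → Option (Px c)) → ℂ)
    (hok : ∀ f ∈ Cf Zc (Px c), wt f ≠ 0 → (adf G B X W T Zc f).Ok p k Mw q c₀ G.Pi) :
    NXX G B X W T Zc wt x = 0 := by
  unfold NXX
  refine Finset.sum_eq_zero fun f hf => ?_
  by_cases hw : wt f = 0
  · rw [hw, zero_mul]
  · rw [if_neg, mul_zero]
    exact fun h' => h'.2 (gd_sv G B X W T Zc hZE hXo x h f (hok f hf hw))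

/-- THEOREM: the converse of `gd_sv` -/
theorem sv_gd [Fintype S] [Fintype P] [NeZero q] (hp : p.Prime) (G : SG c S) (B : SD D Q A)
    (X : FD A P S) (W : WF A) {k Mw c₀ : ℕ} (T : ℝ) (Zc : Finset (Pl K))
    (hZE : Disjoint Zc X.E) (hXo : X.Ok G B W) (hF : Frv G q m ep)
    (f : Pl K → Option (Px c)) (hr : Rich X W T Zc 1 f)
    (hok : (adf G B X W T Zc f).Ok p k Mw q c₀ G.Pi)
    (x : (Px c → Du S q m) × (P → Du S q (m + 1))) (hx : x ∈ QBs q m G X W ep)
    (h : (adf G B X W T Zc f).Sv (etX G B X W T Zc f x)) :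
    H73.OW.Gd G.y (Rh X W) x.1 x.2 := by
  obtain ⟨lam, h1, h2⟩ := h
  have hk := kx_uniq (adf G B X W T Zc f) hp hok m _ _ _ h2
    (etx_kk hp G B X W T Zc hZE hXo hF f hok x hx).1
  refine ⟨lam, fun a z => ?_, fun g hg => ?_⟩
  · obtain ⟨v, hv⟩ := Finset.card_pos.1 (Nat.lt_of_lt_of_le Nat.zero_lt_one (hr a))
    rw [Finset.mem_filter] at hv
    have h3 : v ∈ sp Zc f := mem_sp.2 ⟨hv.1, by rw [hv.2.1]; exact Option.some_ne_none _⟩
    have h4 : (Sum.inl v : Pl K ⊕ Fin A.g) ∈ (adf G B X W T Zc f).Jf :=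
      (jf_iff G B X W T Zc f _).2 (Or.inl ⟨v, h3, rfl⟩)
    have h5 : (adf G B X W T Zc f).pp (Sum.inl v) := ⟨h3, hv.2.2⟩
    have h6 := h1 ⟨Sum.inl v, h4⟩ h5 z
    have h7 : (etX G B X W T Zc f x ⟨Sum.inl v, h4⟩).1 = x.1 a := by
      unfold etX AD.eX
      rw [if_pos h5]
      exact xf_lab (g := A.g) x.1 f hv.2.1
    rw [h7, y_lab G B X W T Zc hZE f hv.1 hv.2.1] at h6
    exact h6
  · obtain ⟨w, hw⟩ := hg
    have h3 : (adf G B X W T Zc f).ph w = g := by
      rw [ph_hat G B X W hXo T Zc f]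
      exact hw
    have h4 : (adf G B X W T Zc f).ph w • lam - lam = x.2 ((adf G B X W T Zc f).ph w) :=
      congrFun hk w
    rw [h3] at h4
    exact h4.symm

end gen

section sp

variable {K : Type} [Field K] [NumberField K] {Ω : Type} [Field Ω] [Algebra K Ω]
  {p N : ℕ} {ζ : K} {D : RD0 K p ζ} {Q : DP K Ω} {A : GS D Ω} {P : Type} [Group P]
  {c : CL p N P} {Pa : Par} {q m : ℕ}

/-- THEOREM: the property `Frg` for `S = Sp Pa (Px c)` -/
theorem frg_sp (G : SG c (Sp Pa (Px c))) (hG : ∀ x, G.y x = sy Pa x) (hm : 1 ≤ m)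
    (hmc : m + 1 ≤ Pa.c) (hq : Pa.q 0 ∣ q) : H73.OW.Frg G q m (Pa.q m) := by
  intro R x κ B hB h0
  have hy : G.y = sy Pa := funext hG
  rw [hy] at hB ⊢
  exact frg hm hmc hq hB fun k hk => h0 k (by omega) hk

/-- THEOREM: survivors -/
theorem good_sv (G : SG c (Sp Pa (Px c))) (hG : ∀ x, G.y x = sy Pa x) (B : SD D Q A)
    (X : FD A P (Sp Pa (Px c))) (W : WF A) {k Mw c₀ : ℕ} (T : ℝ) (Zc : Finset (Pl K))
    (hZE : Disjoint Zc X.E) (hXo : X.Ok G B W) (hm : 1 ≤ m) (hmc : m + 1 ≤ Pa.c)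
    (hq : Pa.q 0 ∣ q) (x : (Px c → Du (Sp Pa (Px c)) q m) × (P → Du (Sp Pa (Px c)) q (m + 1)))
    (Bf : ∀ i j : ℕ, Gr (Sp Pa (Px c)) i →+ Gr (Sp Pa (Px c)) j →+ ZMod q)
    (hB : QB G.y (Pa.q m) (Rh X W) x.1 x.2 Bf)
    (h0 : ∀ w : List (Px c), 2 * w.length = m + 1 →
      Bf w.length w.length (gk w.length (H62.BL.rn (w.map G.y)))
        (gk w.length (H62.BL.rn (w.map G.y))) = 0)
    (f : Pl K → Option (Px c)) (hok : (adf G B X W T Zc f).Ok p k Mw q c₀ G.Pi) :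
    (adf G B X W T Zc f).Sv (etX G B X W T Zc f x) := by
  refine gd_sv G B X W T Zc hZE hXo x ?_ f hok
  have hy : G.y = sy Pa := funext hG
  rw [hy] at hB h0 ⊢
  exact frgw hm hmc hq hB h0

/-- THEOREM: a good quasi Lie functional contributes nothing -/
theorem nxx_good [Fintype P] [NeZero q] (G : SG c (Sp Pa (Px c))) (hG : ∀ x, G.y x = sy Pa x)
    [Fintype (Sp Pa (Px c))] (B : SD D Q A)
    (X : FD A P (Sp Pa (Px c))) (W : WF A) {k Mw c₀ : ℕ} (T : ℝ) (Zc : Finset (Pl K))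
    (hZE : Disjoint Zc X.E) (hXo : X.Ok G B W) (hm : 1 ≤ m) (hmc : m + 1 ≤ Pa.c)
    (hq : Pa.q 0 ∣ q) (x : (Px c → Du (Sp Pa (Px c)) q m) × (P → Du (Sp Pa (Px c)) q (m + 1)))
    (Bf : ∀ i j : ℕ, Gr (Sp Pa (Px c)) i →+ Gr (Sp Pa (Px c)) j →+ ZMod q)
    (hB : QB G.y (Pa.q m) (Rh X W) x.1 x.2 Bf)
    (h0 : ∀ w : List (Px c), 2 * w.length = m + 1 →
      Bf w.length w.length (gk w.length (H62.BL.rn (w.map G.y)))
        (gk w.length (H62.BL.rn (w.map G.y))) = 0)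
    (wt : (Pl K → Option (Px c)) → ℂ)
    (hok : ∀ f ∈ Cf Zc (Px c), wt f ≠ 0 → (adf G B X W T Zc f).Ok p k Mw q c₀ G.Pi) :
    NXX G B X W T Zc wt x = 0 := by
  refine nxx_gd G B X W T Zc hZE hXo x ?_ wt hok
  have hy : G.y = sy Pa := funext hG
  rw [hy] at hB h0 ⊢
  exact frgw hm hmc hq hB h0

end sp

end H51.OW
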