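import Pool.Agent.H82.OW.Fin
import Pool.Agent.H82.OW.Bxa
import Pool.Agent.H51.F4.End
import Pool.Agent.H51.F4.Pm
import Pool.Agent.H51.F4.Hc
import Pool.Agent.H51.HD.Fin
import Pool.Agent.H93.BY.Blg
import Pool.Agent.H35.UY.Apu

/-!
# H51-OW-FINAL: theorem OW (MP_b39724_nt)

`apm4x`: `APm4 p`. `nilx`: every nilpotent transitive group. `asyx`: the asymptotic formula (hand-in `HypercentralAsymptotic`). `lowx`: the lower bound
(hand-in `HypercentralLowerBound`).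
-/

set_option autoImplicit false

noncomputable section

namespace H51.OW

open H51.F4 H82.OW H38.ML.Spec

/-- `APm4 p` -/
theorem apm4x : ∀ p : ℕ, p.Prime → APm4 p :=
  fun p hp => apm4_of hp (eq4s_of p hp (bx2a p hp) fun κ m => H93.BY.blg' hp κ m)

/-- every nilpotent transitive group -/
theorem nilx (n : ℕ)
    (hn : 2 ≤ n) (G : Subgroup (Equiv.Perm (Fin n))) (hG : MulAction.IsPretransitive G (Fin n))
    (hnil : Group.IsNilpotent G) :
    ∃ m : ℕ, 0 < m ∧ ∃ K₀ : IntermediateField ℚ (AlgebraicClosure ℚ), NumberField K₀ ∧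
      ∀ K : IntermediateField ℚ (AlgebraicClosure ℚ), ∀ _ : NumberField K,
      (∃ z : K, IsPrimitiveRoot z m) →
        (K₀ ≤ K ∨ IsGaloisGroup K (AlgebraicClosure ℚ) G) →
          (∀ B : ℝ, nK K (AlgebraicClosure ℚ) G B ≠ ⊤) ∧
          ∃ C : ℝ, 0 < C ∧ Filter.Tendsto
            (fun B : ℝ => ((nK K (AlgebraicClosure ℚ) G B).toNat : ℝ) /
              (B ^ (1 / (indG G : ℝ)) *
                Real.log B ^ (betaAll K (AlgebraicClosure ℚ) G - 1)))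
            Filter.atTop (nhds C) :=
  malle_nil apm4x (fun _ hp => H35.UY.apu3u hp) n hn G hG hnil

/-- the asymptotic formula: the statement of the hand-in `HypercentralAsymptotic` -/
theorem asyx
    (n : ℕ) (hn : 2 ≤ n) (G : Subgroup (Equiv.Perm (Fin n)))
    (hG : MulAction.IsPretransitive G (Fin n)) (T : Subgroup G)
    (hT : T = Subgroup.closure {h : G | h ≠ 1 ∧ ind (h : Equiv.Perm (Fin n)) = indG G})
    (hk : ∃ k : ℕ, T ⊓ (⊤ : Subgroup G).lowerCentralSeries k = ⊥)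
    (hQ : (∃ j : ℕ, Subgroup.upperCentralSeries G j = ⊤ ∨
        Nonempty (G ⧸ Subgroup.upperCentralSeries G j ≃* Equiv.Perm (Fin 3)) ∨
        Nonempty (G ⧸ Subgroup.upperCentralSeries G j ≃* alternatingGroup (Fin 4))) ∨
      ∃ (j : ℕ) (U : Subgroup G), T ≤ U.normalCore ∧
        U.normalCore ≤ Subgroup.upperCentralSeries G j ∧ ∀ g : G, g ∉ T →
          U.index * (U.index - 1) * indG G < 2 * ind (g : Equiv.Perm (Fin n))) :
    ∃ m : ℕ, 0 < m ∧ ∃ K₀ : IntermediateField ℚ (AlgebraicClosure ℚ), NumberField K₀ ∧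
      ∀ K : IntermediateField ℚ (AlgebraicClosure ℚ), ∀ _ : NumberField K,
      (∃ z : K, IsPrimitiveRoot z m) → (K₀ ≤ K ∨ IsGaloisGroup K (AlgebraicClosure ℚ) G) →
        (∀ B : ℝ, nK K (AlgebraicClosure ℚ) G B ≠ ⊤) ∧
        ∃ C : ℝ, 0 < C ∧ Filter.Tendsto
          (fun B : ℝ => ((nK K (AlgebraicClosure ℚ) G B).toNat : ℝ) /
            (B ^ (1 / (indG G : ℝ)) * Real.log B ^ (betaAll K (AlgebraicClosure ℚ) G - 1)))
          Filter.atTop (nhds C) := by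
  subst hT
  obtain ⟨k, hk⟩ := hk
  obtain ⟨m, hm, K₀, hK₀, h⟩ := H51.F4.ht_all apm4x (fun _ hp => H35.UY.apu3u hp) n hn G hG
    _ rfl k hk
  exact ⟨m, hm, K₀, hK₀, fun K hK hz hG' => ((h K hK hz).2 hG').2 hQ⟩

/-- the lower bound: the statement of the hand-in `HypercentralLowerBound` -/
theorem lowx
    (n : ℕ) (hn : 2 ≤ n) (G : Subgroup (Equiv.Perm (Fin n)))
    (hG : MulAction.IsPretransitive G (Fin n)) (T : Subgroup G)
    (hT : T = Subgroup.closure {h : G | h ≠ 1 ∧ ind (h : Equiv.Perm (Fin n)) = indG G}) :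
    ((∃ k : ℕ, T ≤ Subgroup.upperCentralSeries G k) →
      ∃ K₀ : IntermediateField ℚ (AlgebraicClosure ℚ), NumberField K₀ ∧
        ∀ K : IntermediateField ℚ (AlgebraicClosure ℚ), ∀ _ : NumberField K, K₀ ≤ K →
          ∃ c B₀ : ℝ, 0 < c ∧ ∀ B : ℝ, B₀ ≤ B →
            ((⌈c * B ^ (1 / (indG G : ℝ)) *
              Real.log B ^ (betaAll K (AlgebraicClosure ℚ) G - 1)⌉₊ : ℕ) : ℕ∞) ≤
                nK K (AlgebraicClosure ℚ) G B) ∧
    ((∃ k : ℕ, T ⊓ (⊤ : Subgroup G).lowerCentralSeries k = ⊥) →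
      ∃ m : ℕ, 0 < m ∧ ∀ K : IntermediateField ℚ (AlgebraicClosure ℚ), ∀ _ : NumberField K,
        (∃ z : K, IsPrimitiveRoot z m) → IsGaloisGroup K (AlgebraicClosure ℚ) G →
          ∃ c B₀ : ℝ, 0 < c ∧ ∀ B : ℝ, B₀ ≤ B →
            ((⌈c * B ^ (1 / (indG G : ℝ)) *
              Real.log B ^ (betaAll K (AlgebraicClosure ℚ) G - 1)⌉₊ : ℕ) : ℕ∞) ≤
                nK K (AlgebraicClosure ℚ) G B) := by
  subst hT
  refine ⟨fun ⟨k, hk⟩ => H51.HD.hyp_low apm4x (fun _ hp => H35.UY.apu3u hp) n hn G hG k hk,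
    fun ⟨k, hk⟩ => ?_⟩
  obtain ⟨m, hm, K₀, hK₀, h⟩ := H51.F4.ht_all apm4x (fun _ hp => H35.UY.apu3u hp) n hn G hG
    _ rfl k hk
  exact ⟨m, hm, fun K hK hz hG' => ((h K hK hz).2 (Or.inr hG')).1⟩

end H51.OW
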