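import Pool.Agent.H73.OW.Two
import Pool.Agent.H61.Tu.GamComm

/-!
# [H51 OW EXT] extension of a functional of `gam_(d+1) / gam_(d+2)` to two layers (MP_b39724_nt, theorem OW, S4)

* `zext`: `ZMod n` is injective for additive groups killed by `n`.
* `dz_ex`: `χ : Du S q (d+1)` is the restriction of some `ζ : Dz S q d` (`2 ≤ d`, `s ^ q = 1`).
* `dz_pr`: `π k` commuting idempotent endomorphisms of `S`, `χ = 0` on the images of the `π k`: there is `ζ` with `ζ.rs = χ`, `ζ = 0` on the images of the `π k`.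
-/

set_option autoImplicit false

open scoped commutatorElement
open scoped Classical

noncomputable section

namespace H51.OW

open H73.S3 H73.OW

/-- the `n`-torsion of `ℚ / ℤ` -/
theorem zq_ex (n : ℕ) [NeZero n] : ∃ z : ZMod n →+ AddCircle (1 : ℚ), Function.Injective z ∧
    ∀ y : AddCircle (1 : ℚ), n • y = 0 → ∃ k, z k = y := by
  have hn : (n : ℚ) ≠ 0 := Nat.cast_ne_zero.2 (NeZero.ne n)
  have h0 : (zmultiplesHom (AddCircle (1 : ℚ))) (((1 / n : ℚ)) : AddCircle (1 : ℚ)) (n : ℤ) = 0 := by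
    rw [zmultiplesHom_apply, ← AddCircle.coe_zsmul, AddCircle.coe_eq_zero_iff]
    refine ⟨1, ?_⟩
    rw [zsmul_eq_mul, zsmul_eq_mul]
    push_cast
    field_simp
  refine ⟨ZMod.lift n ⟨zmultiplesHom _ (((1 / n : ℚ)) : AddCircle (1 : ℚ)), h0⟩, ?_, ?_⟩
  · rw [ZMod.lift_injective]
    intro i hi
    have h1 : (zmultiplesHom (AddCircle (1 : ℚ))) (((1 / n : ℚ)) : AddCircle (1 : ℚ)) i = 0 := hi
    rw [zmultiplesHom_apply, ← AddCircle.coe_zsmul, AddCircle.coe_eq_zero_iff] at h1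
    obtain ⟨m, hm⟩ := h1
    rw [zsmul_eq_mul, zsmul_eq_mul, mul_one, mul_one_div, eq_div_iff hn] at hm
    have h2 : i = m * n := by exact_mod_cast hm.symm
    rw [h2]
    push_cast
    rw [ZMod.natCast_self, mul_zero]
  · intro y hy
    induction y using QuotientAddGroup.induction_on with
    | H x =>
      have h1 : ((n • x : ℚ) : AddCircle (1 : ℚ)) = 0 := hy
      rw [AddCircle.coe_eq_zero_iff] at h1
      obtain ⟨m, hm⟩ := h1
      refine ⟨(m : ZMod n), ?_⟩
      rw [ZMod.lift_coe]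
      show (zmultiplesHom (AddCircle (1 : ℚ))) (((1 / n : ℚ)) : AddCircle (1 : ℚ)) m = _
      rw [zmultiplesHom_apply, ← AddCircle.coe_zsmul]
      have h2 : m • (1 / n : ℚ) = x := by
        rw [zsmul_eq_mul, mul_one_div, div_eq_iff hn]
        rw [zsmul_eq_mul, mul_one, nsmul_eq_mul] at hm
        rw [hm, mul_comm]
      rw [h2]

/-- `ZMod n` is injective for groups killed by `n` -/
theorem zext {A B : Type} [AddCommGroup A] [AddCommGroup B] {n : ℕ} [NeZero n]
    (hA : ∀ a : A, n • a = 0) (j : B →+ A) (hj : Function.Injective j) (f : B →+ ZMod n) :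
    ∃ F : A →+ ZMod n, ∀ b, F (j b) = f b := by
  obtain ⟨z, hz, hzt⟩ := zq_ex n
  obtain ⟨g, hg⟩ := CharacterModule.dual_surjective_of_injective (R := ℤ) j.toIntLinearMap hj
    (z.comp f : B →+ AddCircle (1 : ℚ))
  have hg1 : ∀ b, g (j b) = z (f b) := fun b => DFunLike.congr_fun hg b
  have h1 : ∀ a : A, ∃ k : ZMod n, z k = g a := fun a => hzt _ (by
    rw [← map_nsmul, hA, map_zero])
  choose F hF using h1
  refine ⟨{ toFun := F, map_zero' := hz ?_, map_add' := fun a b => hz ?_ }, fun b => hz ?_⟩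
  · rw [hF, map_zero, map_zero]
  · rw [hF, map_add, map_add, hF, hF]
  · show z (F (j b)) = z (f b)
    rw [hF, hg1]

variable {S : Type} [Group S] {q d : ℕ}

theorem gz_exp [NeZero q] (hq : ∀ s : S, s ^ q = 1) (a : Gz S d) : q • a = 0 := by
  obtain ⟨u, hu, rfl⟩ := gz_surj d a
  have h1 : ∀ n : ℕ, gz d (u ^ n) = n • gz d u := by
    intro n
    induction n with
    | zero => rw [pow_zero, zero_smul, gz_one]
    | succ n ih => rw [pow_succ, gz_mul (pow_mem hu n) hu, ih, succ_nsmul]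
  rw [← h1, hq, gz_one]

/-- the inclusion of the lower layer -/
theorem gi_ex (S : Type) [Group S] (d : ℕ) : ∃ j : Gr S (d + 1) →+ Gz S d,
    ∀ u ∈ gm S (d + 1), j (gk (d + 1) u) = gz d u :=
  gr_lift (d + 1) (fun u => gz d u)
    (fun _ hu _ hv => gz_mul (gm_anti d hu) (gm_anti d hv))
    fun _ hu => (gz_zero (gm_le (by omega) hu)).2 (kz_ge d hu)

theorem kz_eq (hd : 2 ≤ d) : kz S d = gm S (d + 2) := by
  refine le_antisymm (sup_le le_rfl ?_) (kz_ge d)
  obtain ⟨e, rfl⟩ : ∃ e, d = e + 1 := ⟨d - 1, by omega⟩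
  refine (Pool.Agent.H61.Tu.gam_commutator_le S e e).trans ?_
  exact gm_le (show e + 1 + 2 ≤ e + e + 1 + 1 by omega)

theorem gi_inj (hd : 2 ≤ d) (j : Gr S (d + 1) →+ Gz S d)
    (hj : ∀ u ∈ gm S (d + 1), j (gk (d + 1) u) = gz d u) : Function.Injective j := by
  rw [injective_iff_map_eq_zero]
  intro a ha
  obtain ⟨u, hu, rfl⟩ := gk_surj (d + 1) a
  rw [hj u hu, gz_zero (gm_anti d hu), kz_eq hd] at ha
  exact (gk_zero hu).2 ha

theorem dz_ex [NeZero q] (hq : ∀ s : S, s ^ q = 1) (hd : 2 ≤ d) (χ : Du S q (d + 1)) :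
    ∃ ζ : Dz S q d, ζ.rs = χ := by
  obtain ⟨j, hj⟩ := gi_ex S d
  obtain ⟨F, hF⟩ := zext (gz_exp (d := d) hq) j (gi_inj hd j hj) χ.ap
  obtain ⟨ζ, hζ⟩ : ∃ ζ : Dz S q d, ∀ a, ζ.ap a = F a := ⟨F, fun _ => rfl⟩
  refine ⟨ζ, du_ext fun a => ?_⟩
  obtain ⟨u, hu, rfl⟩ := gk_surj (d + 1) a
  rw [rs_gk _ hu, hζ]
  have h1 := hF (gk (d + 1) u)
  rw [hj u hu] at h1
  exact h1

theorem gm_map (d : ℕ) (π : S →* S) {u : S} (hu : u ∈ gm S d) : π u ∈ gm S d := by
  have h1 : ∀ e : ℕ, (gm S (e + 1)).map π ≤ gm S (e + 1) := by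
    intro e
    induction e with
    | zero => exact le_top
    | succ e ih =>
      rw [gm_succ (e + 1) (by omega), Subgroup.map_commutator]
      exact Subgroup.commutator_mono ih le_top
  rcases Nat.eq_zero_or_pos d with h | h
  · subst h
    exact Subgroup.mem_top _
  · obtain ⟨e, rfl⟩ : ∃ e, d = e + 1 := ⟨d - 1, by omega⟩
    exact h1 e ⟨u, hu, rfl⟩

/-- functions on the two layers -/
theorem gz_lift {A : Type} [AddCommGroup A] (d : ℕ) (f : S → A)
    (h : ∀ u ∈ gm S d, ∀ v ∈ gm S d, f (u * v) = f u + f v) (h1 : ∀ u ∈ gm S (d + 2), f u = 0) :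
    ∃ F : Gz S d →+ A, ∀ u ∈ gm S d, F (gz d u) = f u := by
  let g : gm S d →* Multiplicative A :=
    { toFun := fun u => Multiplicative.ofAdd (f u)
      map_one' := by
        show Multiplicative.ofAdd (f 1) = 1
        rw [h1 1 (one_mem _)]
        rfl
      map_mul' := fun u v => by
        show Multiplicative.ofAdd (f (u * v)) = _
        rw [h u.1 u.2 v.1 v.2]
        rfl }
  have hk : kz S d ≤ g.ker.map (gm S d).subtype := by
    unfold kz
    refine sup_le (fun u hu => ?_) ?_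
    · refine ⟨⟨u, gm_le (by omega) hu⟩, ?_, rfl⟩
      show g _ = 1
      show Multiplicative.ofAdd (f u) = 1
      rw [h1 _ hu]
      rfl
    · rw [Subgroup.commutator_le]
      intro a ha b hb
      refine ⟨⁅(⟨a, ha⟩ : gm S d), (⟨b, hb⟩ : gm S d)⁆, ?_, rfl⟩
      show g _ = 1
      rw [map_commutatorElement, commutatorElement_eq_one_iff_mul_comm, mul_comm]
  have hg : (kz S d).subgroupOf (gm S d) ≤ g.ker := by
    intro u hu
    rw [Subgroup.mem_subgroupOf] at hu
    obtain ⟨w, hw, hwu⟩ := hk hu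
    have h2 : w = u := Subtype.ext hwu
    rw [← h2]
    exact hw
  let F : Gz S d →+ A :=
    { toFun := fun a => (Multiplicative.toAdd (QuotientGroup.lift _ g hg
        (Additive.toMul (α := gm S d ⧸ (kz S d).subgroupOf (gm S d)) a)) : A)
      map_zero' := by
        show Multiplicative.toAdd (QuotientGroup.lift _ g hg 1) = 0
        rw [map_one]
        rfl
      map_add' := fun a b => by
        show Multiplicative.toAdd (QuotientGroup.lift _ g hg (Additive.toMul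
          (α := gm S d ⧸ (kz S d).subgroupOf (gm S d)) a * Additive.toMul
          (α := gm S d ⧸ (kz S d).subgroupOf (gm S d)) b)) = _
        rw [map_mul]
        rfl }
  refine ⟨F, fun u hu => ?_⟩
  rw [gz_of hu]
  rfl

theorem gp_ex (π : S →* S) (d : ℕ) : ∃ j : Gz S d →+ Gz S d,
    ∀ u ∈ gm S d, j (gz d u) = gz d (π u) :=
  gz_lift d (fun u => gz d (π u))
    (fun u hu v hv => by rw [map_mul, gz_mul (gm_map d π hu) (gm_map d π hv)])
    fun u hu => (gz_zero (gm_map d π (gm_le (by omega) hu))).2 (kz_ge d (gm_map (d + 2) π hu))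

/-- extension with value `0` on the images of the `π k` -/
theorem dz_pr [NeZero q] (hq : ∀ s : S, s ^ q = 1) (hd : 2 ≤ d) (χ : Du S q (d + 1)) {ι : Type}
    [Fintype ι] (π : ι → S →* S) (h1 : ∀ k u, π k (π k u) = π k u)
    (h2 : ∀ k l u, π k (π l u) = π l (π k u))
    (hχ : ∀ k, ∀ u ∈ gm S (d + 1), χ.ap (gk (d + 1) (π k u)) = 0) :
    ∃ ζ : Dz S q d, ζ.rs = χ ∧ ∀ k, ∀ u ∈ gm S d, ζ.ap (gz d (π k u)) = 0 := by
  obtain ⟨ζ, a1, a2⟩ : ∃ ζ : Dz S q d, ζ.rs = χ ∧
      ∀ k ∈ (Finset.univ : Finset ι), ∀ u ∈ gm S d, ζ.ap (gz d (π k u)) = 0 := by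
    induction (Finset.univ : Finset ι) using Finset.induction_on with
    | empty =>
      obtain ⟨ζ, hζ⟩ := dz_ex hq hd χ
      exact ⟨ζ, hζ, fun k hk => absurd hk (Finset.notMem_empty k)⟩
    | insert k s _ ih =>
      obtain ⟨ζ, a1, a2⟩ := ih
      obtain ⟨j, hj⟩ := gp_ex (π k) d
      obtain ⟨ζ', hζ'⟩ : ∃ ζ' : Dz S q d, ∀ a, ζ'.ap a = ζ.ap a - ζ.ap (j a) :=
        ⟨(ζ.ap - ζ.ap.comp j : Gz S d →+ ZMod q), fun _ => rfl⟩
      have hu' : ∀ (l : ι) (u : S), u ∈ gm S d → π l u ∈ gm S d := fun l u hu => gm_map _ _ hu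
      refine ⟨ζ', du_ext fun a => ?_, fun l hl u hu => ?_⟩
      · obtain ⟨u, hu, rfl⟩ := gk_surj (d + 1) a
        have hu1 : u ∈ gm S d := gm_anti d hu
        have e1 := hχ k u hu
        rw [← a1, rs_gk _ (gm_map _ _ hu)] at e1
        rw [rs_gk _ hu, hζ', hj u hu1, e1, sub_zero, ← a1, rs_gk _ hu]
      · rw [hζ', hj _ (hu' l u hu)]
        rcases Finset.mem_insert.1 hl with rfl | hl
        · rw [h1, sub_self]
        · rw [a2 l hl u hu, h2, a2 l hl _ (hu' k u hu), sub_zero]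
  exact ⟨ζ, a1, fun k => a2 k (Finset.mem_univ k)⟩

end H51.OW
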