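import Pool.Agent.H51.OW.Final
import Pool.Agent.H71.HT2.Fin4

/-!
# H51-OW-FINAL2: theorem HT for all hypercentral `T` (MP_b39724_nt)

`asy2x`: the asymptotic formula (hand-in `HypercentralAsymptotic`, second version).
-/

set_option autoImplicit false

noncomputable section

namespace H51.OW

open H51.F4 H82.OW H38.ML.Spec H51.PF

theorem asy2x
    (n : ℕ) (hn : 2 ≤ n) (G : Subgroup (Equiv.Perm (Fin n)))
    (hG : MulAction.IsPretransitive G (Fin n)) (T : Subgroup G)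
    (hT : T = Subgroup.closure {h : G | h ≠ 1 ∧ ind (h : Equiv.Perm (Fin n)) = indG G})
    (hQ : (∃ k : ℕ, T ≤ Subgroup.upperCentralSeries G k) ∧
        (∃ j : ℕ, Subgroup.upperCentralSeries G j = ⊤ ∨
          Nonempty (G ⧸ Subgroup.upperCentralSeries G j ≃* Equiv.Perm (Fin 3)) ∨
          Nonempty (G ⧸ Subgroup.upperCentralSeries G j ≃* alternatingGroup (Fin 4))) ∨
      (∃ k : ℕ, T ⊓ (⊤ : Subgroup G).lowerCentralSeries k = ⊥) ∧
        ∃ (j : ℕ) (U : Subgroup G), T ≤ U.normalCore ∧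
          U.normalCore ≤ Subgroup.upperCentralSeries G j ∧ ∀ g : G, g ∉ T →
            U.index * (U.index - 1) * indG G < 2 * ind (g : Equiv.Perm (Fin n))) :
    ∃ m : ℕ, 0 < m ∧ ∃ K₀ : IntermediateField ℚ (AlgebraicClosure ℚ), NumberField K₀ ∧
      ∀ K : IntermediateField ℚ (AlgebraicClosure ℚ), ∀ _ : NumberField K,
      (K₀ ≤ K ∨ (∃ k : ℕ, T ⊓ (⊤ : Subgroup G).lowerCentralSeries k = ⊥) ∧
        (∃ z : K, IsPrimitiveRoot z m) ∧ IsGaloisGroup K (AlgebraicClosure ℚ) G) →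
        (∀ B : ℝ, nK K (AlgebraicClosure ℚ) G B ≠ ⊤) ∧
        ∃ C : ℝ, 0 < C ∧ Filter.Tendsto
          (fun B : ℝ => ((nK K (AlgebraicClosure ℚ) G B).toNat : ℝ) /
            (B ^ (1 / (indG G : ℝ)) * Real.log B ^ (betaAll K (AlgebraicClosure ℚ) G - 1)))
          Filter.atTop (nhds C) := by
  have hAsy : ∀ (K : IntermediateField ℚ (AlgebraicClosure ℚ)) [NumberField K], Asy G K →
      (∀ B : ℝ, nK K (AlgebraicClosure ℚ) G B ≠ ⊤) ∧
        ∃ C : ℝ, 0 < C ∧ Filter.Tendsto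
          (fun B : ℝ => ((nK K (AlgebraicClosure ℚ) G B).toNat : ℝ) /
            (B ^ (1 / (indG G : ℝ)) * Real.log B ^ (betaAll K (AlgebraicClosure ℚ) G - 1)))
          Filter.atTop (nhds C) := by
    rintro K _ ⟨C, hC, k, hk, ht⟩
    refine ⟨fun B => ?_, C, hC, ?_⟩
    · rw [hk]
      exact ENat.natCast_ne_top _
    · refine ht.congr fun B => ?_
      rw [hk]
      rfl
  by_cases hγ : ∃ k : ℕ, T ⊓ (⊤ : Subgroup G).lowerCentralSeries k = ⊥
  · obtain ⟨m, hm, K₀, hK₀, h⟩ := asyx n hn G hG T hT hγ (by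
      rcases hQ with ⟨-, h⟩ | ⟨-, h⟩
      · exact Or.inl h
      · exact Or.inr h)
    have : NeZero m := ⟨hm.ne'⟩
    obtain ⟨K₁, hK₁, h1⟩ := H38.BG.akn (Multiplicative (ZMod m))
    have hf₀ : FiniteDimensional ℚ K₀ := hK₀.to_finiteDimensional
    have hf₁ : FiniteDimensional ℚ K₁ := hK₁.to_finiteDimensional
    have hK₂ : NumberField (K₀ ⊔ K₁ : IntermediateField ℚ (AlgebraicClosure ℚ)) :=
      { to_charZero := inferInstance
        to_finiteDimensional := IntermediateField.finiteDimensional_sup K₀ K₁ }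
    refine ⟨m, hm, K₀ ⊔ K₁, hK₂, fun K hK hc => ?_⟩
    rcases hc with hc | ⟨-, hz, hG'⟩
    · obtain ⟨-, ⟨z, hz⟩, -⟩ := h1 K (le_sup_right.trans hc) hK
      have hcd : Nat.card (Multiplicative (ZMod m)) = m :=
        (Nat.card_congr Multiplicative.toAdd).trans (Nat.card_zmod _)
      rw [hcd] at hz
      exact h K hK ⟨z, hz⟩ (Or.inl (le_sup_left.trans hc))
    · exact h K hK hz (Or.inr hG')
  · rcases hQ with ⟨⟨k, hk⟩, hJ⟩ | ⟨h, -⟩
    · rw [hT] at hk
      obtain ⟨K₀, hK₀, h⟩ := H71.HT2.ht2_4 apm4x (fun _ hp => H35.UY.apu3u hp) n hn G hG k hk hJ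
      refine ⟨1, one_pos, K₀, hK₀, fun K hK hc => ?_⟩
      rcases hc with hc | ⟨hc, -⟩
      · exact hAsy K (h K hK hc)
      · exact absurd hc hγ
    · exact absurd h hγ

end H51.OW
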