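import Pool.Agent.H88.OW.Map
import Pool.Agent.H73.OW.Wrd

/-!
# [H51 OW FRG] a quasi Lie functional which vanishes on the diagonal comes from a functional of the layer (MP_b39724_nt, theorem OW, S1)

`frg`: `QB` for `S = Sp P α` with `B k k u u = 0` for all `u ∈ gam_k`, `2 k = m + 1`: there is `lam` with `X a z = - lam [y a, z]` and `κ g = g lam - lam` for `g ∈ R`.
`frgw`: the same, with the right normed commutators of the letters only.
-/

set_option autoImplicit false

open scoped Classical commutatorElement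

noncomputable section

namespace H51.OW

open H62.BL H88.S3 H82.S3 Pool.Agent.H61.Tu H88.OW

open H73.S3 (gm Gr gk Du gk_surj gk_zero gk_mul gk_inv gk_one gk_of smul_gk gm_comm' gm_comm gm_smul gm_anti gm_succ gm_normal
  gk_conj du_ext ap_smul ap_neg ap_sub br br_gk)

variable {P : Par} {α : Type} {q m : ℕ}

/-- a functional on the Lie elements killed by the precision, as a functional of the layer -/
theorem frg_lay (hm : 1 ≤ m) (hmc : m ≤ P.c) (hq : P.q (m - 1) ∣ q)
    (Ps : FreeLieAlgebra (ZMod q) α →ₗ[ZMod q] ZMod q)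
    (hk : ∀ c ∈ HL (ZMod q) α m, (P.q (m - 1) : ZMod q) * Ps c = 0) :
    ∃ lam : Du (Sp P α) q m, ∀ u a, Rq P q m u a → lam.ap (gk m u) = Ps a := by
  have hw : ∀ {u v : Sp P α} {a b : FreeLieAlgebra (ZMod q) α}, Rq P q m u a → Rq P q m v b →
      gk m u = gk m v → Ps a = Ps b := by
    intro u v a b hu hv h
    obtain ⟨c, hc, rfl⟩ := rq_ker hm hmc hq hu hv h
    rw [map_add, map_smul, smul_eq_mul, hk c hc, add_zero]
  have hr : ∀ x : Gr (Sp P α) m, ∃ (u : Sp P α) (a : FreeLieAlgebra (ZMod q) α),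
      gk m u = x ∧ Rq P q m u a := by
    intro x
    obtain ⟨u, hu, rfl⟩ := gk_surj m x
    obtain ⟨a, ha⟩ := rq_ex (P := P) (q := q) hm hmc hu
    exact ⟨u, a, rfl, ha⟩
  choose U A hU hA using hr
  let F : Gr (Sp P α) m →+ ZMod q := AddMonoidHom.mk' (fun x => Ps (A x)) fun x x' => by
    rw [← map_add]
    refine hw (hA _) (rq_mul hm hmc (hA x) (hA x')) ?_
    rw [hU, gk_mul (hA x).mem (hA x').mem, hU, hU]
  refine ⟨F, fun u a hu => ?_⟩
  show Ps (A (gk m u)) = Ps a
  exact hw (hA _) hu (hU _)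

/-- THEOREM, words only -/
theorem frgw {Q : Type} [Group Q] [MulAction Q α] (hm : 1 ≤ m) (hmc : m + 1 ≤ P.c) (hq : P.q 0 ∣ q) {R : Subgroup Q}
    {X : α → Du (Sp P α) q m} {κ : Q → Du (Sp P α) q (m + 1)} {B : ∀ i j : ℕ, Gr (Sp P α) i →+ Gr (Sp P α) j →+ ZMod q}
    (h : QB (sy P) (P.q m) R X κ B)
    (h0 : ∀ w : List α, 2 * w.length = m + 1 →
      B w.length w.length (gk w.length (H62.BL.rn (w.map (sy P)))) (gk w.length (H62.BL.rn (w.map (sy P)))) = 0) :
    ∃ lam : Du (Sp P α) q (m + 1), (∀ a z, (X a).ap z = -lam.ap (br m (sy P a) z)) ∧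
      ∀ g ∈ R, κ g = g • lam - lam := by
  have hqd : ∀ i, i ≤ m + 1 → P.q (i - 1) ∣ q := fun i hi => (P.q_dvd (Nat.zero_le (i - 1)) (by omega)).trans hq
  obtain ⟨de, hk, hd, h1, hs, hde0, hB, he⟩ := qb_de hm hmc hq h
  -- right normed commutators
  have hrn : ∀ w : List α, w ≠ [] → w.length ≤ m + 1 →
      Rq P q w.length (H62.BL.rn (w.map (sy P))) (rb (FreeLieAlgebra.of (ZMod q)) w) := by
    intro w
    induction w with
    | nil => intro h _; exact absurd rfl h
    | cons a w ih =>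
      intro _ hl
      by_cases hw : w = []
      · subst hw
        exact rq_of hq a
      · have hl' : w.length + 1 ≤ m + 1 := by rwa [List.length_cons] at hl
        have h2 := ih hw (by omega)
        have h3 : 1 ≤ w.length := List.length_pos_iff.2 hw
        have h4 := rq_lie le_rfl h3 (by omega) hq (rq_of hq a) h2
        have e : H62.BL.rn ((a :: w).map (sy P)) = ⁅sy P a, H62.BL.rn (w.map (sy P))⁆ := by
          rcases w with _ | ⟨b, w⟩
          · exact absurd rfl hw
          · rfl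
        rw [rb_cons _ a hw, e, List.length_cons, add_comm w.length 1]
        exact h4
  have h00 : ∀ u : List α, de (rb (FreeLieAlgebra.of (ZMod q)) u) (rb (FreeLieAlgebra.of (ZMod q)) u) = 0 := by
    intro u
    by_cases hu : 2 * u.length = m + 1
    · have hne : u ≠ [] := by
        rintro rfl
        rw [List.length_nil] at hu
        omega
      have h2 := hrn u hne (by omega)
      rw [← hB u.length u.length (by omega) (by omega) (by omega) _ _ _ _ h2 h2]
      exact h0 u hu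
    · exact hde0 u.length u.length (by omega) _ (hl_mem rfl) _ (hl_mem rfl)
  obtain ⟨Ps, hPs⟩ := H51.S3.frp de h1 (fun u v => hs _ _) h00
  have hkP : ∀ c ∈ HL (ZMod q) α (m + 1), (P.q (m + 1 - 1) : ZMod q) * Ps c = 0 := by
    intro c hc
    show (P.q m : ZMod q) * Ps c = 0
    induction hc using Submodule.span_induction with
    | mem x hx =>
      obtain ⟨w, hw, rfl⟩ := hx
      rcases w with _ | ⟨a, w⟩
      · simp at hw
      have hw0 : w ≠ [] := by
        rintro rfl
        simp at hw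
        omega
      rw [rb_cons _ a hw0, hPs, hk]
    | zero => rw [map_zero, mul_zero]
    | add x y _ _ hx hy => rw [map_add, mul_add, hx, hy, add_zero]
    | smul r x _ hx => rw [map_smul, smul_eq_mul, mul_left_comm, hx, mul_zero]
  obtain ⟨L, hL⟩ := frg_lay (P := P) (q := q) (by omega) hmc (hqd (m + 1) le_rfl) Ps hkP
  have hLc : ∀ {u v : Sp P α} {a b : FreeLieAlgebra (ZMod q) α}, Rq P q 1 u a → Rq P q m v b →
      L.ap (gk (m + 1) ⁅u, v⁆) = de a b := by
    intro u v a b hu hv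
    have h2 := rq_lie le_rfl hm (by omega) hq hu hv
    rw [add_comm 1 m] at h2
    rw [hL _ _ h2, hPs]
  refine ⟨-L, fun a z => ?_, fun g hg => ?_⟩
  · obtain ⟨v, hv, rfl⟩ := gk_surj m z
    obtain ⟨b, hb⟩ := rq_ex (P := P) (q := q) hm (by omega) hv
    rw [br_gk _ hv, ap_neg, neg_neg, hLc (rq_of hq a) hb, ← h.gen a,
      hB 1 m le_rfl hm (by omega) _ _ _ _ (rq_of hq a) hb]
  · refine du_cext hm fun u v hv => ?_
    obtain ⟨a, ha⟩ := rq_ex (P := P) (q := q) (i := 1) le_rfl (by omega) (u := u) (Subgroup.mem_top _)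
    obtain ⟨b, hb⟩ := rq_ex (P := P) (q := q) hm (by omega) hv
    have ha' := rq_smul (P := P) (q := q) le_rfl (by omega) g⁻¹ ha
    have hb' := rq_smul (P := P) (q := q) hm (by omega) g⁻¹ hb
    have e1 : g⁻¹ • gk (m + 1) ⁅u, v⁆ = gk (m + 1) ⁅g⁻¹ • u, g⁻¹ • v⁆ := by
      rw [smul_gk _ (gm_comm' m hv)]
      simp only [commutatorElement_def, smul_mul', smul_inv']
    rw [h.eqv g hg 1 m le_rfl hm (by omega) u (Subgroup.mem_top _) v hv, ap_sub, ap_smul, e1, ap_neg, ap_neg,
      hLc ha hb, hLc ha' hb', smul_gk _ (Subgroup.mem_top _ : u ∈ gm (Sp P α) 1), smul_gk _ hv,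
      hB 1 m le_rfl hm (by omega) _ _ _ _ ha hb, hB 1 m le_rfl hm (by omega) _ _ _ _ ha' hb']
    ring

/-- the right normed commutators are in the layer -/
theorem rn_mem {S A : Type} [Group S] (y : A → S) (w : List A) (hw : w ≠ []) : H62.BL.rn (w.map y) ∈ gm S w.length := by
  induction w with
  | nil => exact absurd rfl hw
  | cons a w ih =>
    rcases w with _ | ⟨b, w⟩
    · exact Subgroup.mem_top _
    · exact gm_comm' _ (ih (by simp))

/-- THEOREM -/
theorem frg {Q : Type} [Group Q] [MulAction Q α] (hm : 1 ≤ m) (hmc : m + 1 ≤ P.c) (hq : P.q 0 ∣ q) {R : Subgroup Q}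
    {X : α → Du (Sp P α) q m} {κ : Q → Du (Sp P α) q (m + 1)} {B : ∀ i j : ℕ, Gr (Sp P α) i →+ Gr (Sp P α) j →+ ZMod q}
    (h : QB (sy P) (P.q m) R X κ B)
    (h0 : ∀ k, 2 * k = m + 1 → ∀ u ∈ gm (Sp P α) k, B k k (gk k u) (gk k u) = 0) :
    ∃ lam : Du (Sp P α) q (m + 1), (∀ a z, (X a).ap z = -lam.ap (br m (sy P a) z)) ∧
      ∀ g ∈ R, κ g = g • lam - lam :=
  frgw hm hmc hq h fun w hw => h0 w.length hw _ (rn_mem _ w fun h => by
    rw [h, List.length_nil] at hw
    omega)

end H51.OW
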