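import Pool.Agent.H88.OW.Dic
import Pool.Agent.H35.OW.Ngc
import Pool.Agent.H73.S3.Neg

/-!
# [H51 OW NEG1] the negligible part with linked tuples, and the quasi Lie part (MP_b39724_nt, theorem OW, S1)

* `LkF f e`: the family of `e` has a linked tuple for the configuration `f` of letters. `NXL`: the part of `NX` of the families with a linked tuple, `EXL`: the same for enriched
  configurations. `reiL`: `NXL = EXL`. `negL`: `NXL` is negligible (no condition on `p`, box inequality `BxF`).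
* `nx_split`: `NX = NXL + ∑ x ∈ QBs, NXX x` for a weight which vanishes unless `f` is rich (`dic`, `etx_ulk`, `etx_inj`).
* `neg1`: `NX - ∑ x ∈ QBs, NXX x` is negligible.
-/

set_option autoImplicit false

open scoped NumberField commutatorElement
open IsDedekindDomain
open scoped Classical

noncomputable section

namespace H51.OW

open H63.MA H38.BB H38.BG H57.PC H57.BRA H77.WD H77.WE H77.PC3 H35.CF H35.UB H77.S3 H71.S3 H1.S3
  H73.S3 H88.OW

attribute [local instance 50] Fintype.ofFinite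

variable {K : Type} [Field K] [NumberField K] {Ω : Type} [Field Ω] [Algebra K Ω]
  {p N : ℕ} {ζ : K} {D : RD0 K p ζ} {Q : DP K Ω} {A : GS D Ω} {P : Type} [Group P]
  {c : CL p N P} {S : Type} [Group S] [MulDistribMulAction P S] {q m ep : ℕ}

variable (G : SG c S) (B : SD D Q A) (X : FD A P S) (W : WF A)

theorem ite_iff {a b : Prop} {_ : Decidable a} {_ : Decidable b} (h : a ↔ b) (x y : ℂ) :
    (if a then x else y) = if b then x else y := by
  by_cases hb : b
  · rw [if_pos hb, if_pos (h.2 hb)]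
  · rw [if_neg hb, if_neg fun ha => hb (h.1 ha)]

/-- the family has a linked tuple -/
def LkF (T : ℝ) (Zc : Finset (Pl K)) (f : Pl K → Option (Px c))
    (e : Pl K ⊕ Fin A.g → El S P q m) : Prop :=
  ∃ v : Fin (m + 1) → Pl K, Function.Injective v ∧ (∀ k, v k ∈ sp Zc f ∧ PPc X W T (v k)) ∧
    ¬Ulk ((adf G B X W T Zc f).Qp ((adf G B X W T Zc f).kk ((adf G B X W T Zc f).et e)))
      (fun k => (adf G B X W T Zc f).y (Sum.inl (v k))) fun k => (e (Sum.inl (v k))).1.1

theorem lkf_et (T : ℝ) (Zc : Finset (Pl K)) (f : Pl K → Option (Px c))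
    (e e' : Pl K ⊕ Fin A.g → El S P q m)
    (h : (adf G B X W T Zc f).et e = (adf G B X W T Zc f).et e') :
    LkF G B X W T Zc f e ↔ LkF G B X W T Zc f e' := by
  unfold LkF
  refine exists_congr fun v => and_congr_right fun _ => and_congr_right fun hv => ?_
  have h1 : (fun k => (e (Sum.inl (v k))).1.1) = fun k => (e' (Sum.inl (v k))).1.1 := by
    funext k
    have h2 : (Sum.inl (v k) : Pl K ⊕ Fin A.g) ∈ (adf G B X W T Zc f).Jf :=
      (jf_iff G B X W T Zc f _).2 (Or.inl ⟨v k, (hv k).1, rfl⟩)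
    have h3 := congrFun h ⟨Sum.inl (v k), h2⟩
    have h4 : (e (Sum.inl (v k))).1 = (e' (Sum.inl (v k))).1 := h3
    rw [h4]
  rw [h, h1]

/-- the family `η` as a function of the letters -/
def e1 (T : ℝ) (Zc : Finset (Pl K)) (f : Pl K → Option (Px c))
    (η : (adf G B X W T Zc f).Jf → Du S q m × Du S q (m + 1)) : Pl K ⊕ Fin A.g → El S P q m :=
  (adf G B X W T Zc f).ee fun j => (η j, 1)

theorem et_e1 (T : ℝ) (Zc : Finset (Pl K)) (f : Pl K → Option (Px c))
    (η : (adf G B X W T Zc f).Jf → Du S q m × Du S q (m + 1)) :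
    (adf G B X W T Zc f).et (e1 G B X W T Zc f η) = η := et_ee _ _ _

variable (q) in
/-- the part of the families with a linked tuple -/
def NXL [Fintype S] [Fintype P] [NeZero q] (T : ℝ) (Zc : Finset (Pl K))
    (wt : (Pl K → Option (Px c)) → ℂ) (m : ℕ) : ℂ :=
  ∑ f ∈ Cf Zc (Px c), wt f * ∑ η ∈ Finset.univ.filter
    (fun η : (adf G B X W T Zc f).Jf → Du S q m × Du S q (m + 1) =>
      ((adf G B X W T Zc f).Ff η ∧ (adf G B X W T Zc f).Hk η ∧ ¬(adf G B X W T Zc f).Sv η) ∧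
        LkF G B X W T Zc f (e1 G B X W T Zc f η)),
    (adf G B X W T Zc f).Mn fun τ => (adf G B X W T Zc f).Hh m τ ((adf G B X W T Zc f).vl τ) η

/-- the sum over the enriched configurations with a linked tuple -/
def EXL [Fintype S] [Fintype P] [NeZero q] (T : ℝ) (Zc : Finset (Pl K))
    (wt : (Pl K → Option (Px c)) → ℂ) : ℂ :=
  ∑ τ : V0 B X → S, ∑ e : J0 X → El S P q m, ∑ f ∈ Cf Zc (Elb c S q m),
    wt (lf f) * (if LkF G B X W T Zc (lf f) (ef (xe0 X e) f) then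
      AX G B X W T Zc (xt0 B X τ) (xe0 X e) f else 0) *
      FX G B X W T Zc (xt0 B X τ) (xe0 X e) f

theorem reiL [Fintype S] [Fintype P] [NeZero q] (hp : p.Prime) {k Mw c₀ : ℕ} (T : ℝ)
    (Zc : Finset (Pl K))
    (hZE : Disjoint Zc X.E) (hZ0 : Disjoint Zc D.S0) (hm : 1 ≤ m)
    (wt : (Pl K → Option (Px c)) → ℂ)
    (hok : ∀ f ∈ Cf Zc (Px c), wt f ≠ 0 → (adf G B X W T Zc f).Ok p k Mw q c₀ G.Pi) :
    NXL q G B X W T Zc wt m = EXL (q := q) (m := m) G B X W T Zc wt := by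
  unfold NXL EXL
  have h1 : ∀ (τ : V0 B X → S) (e : J0 X → El S P q m), ∑ F ∈ Cf Zc (Elb c S q m),
      wt (lf F) * (if LkF G B X W T Zc (lf F) (ef (xe0 X e) F) then
        AX G B X W T Zc (xt0 B X τ) (xe0 X e) F else 0) *
        FX G B X W T Zc (xt0 B X τ) (xe0 X e) F =
      ∑ f ∈ Cf Zc (Px c), ∑ F ∈ (Cf Zc (Elb c S q m)).filter (fun F => lf F = f),
        wt f * (if LkF G B X W T Zc f (ef (xe0 X e) F) then
          Gx G B X W T Zc f (tf (xt0 B X τ) F) (ef (xe0 X e) F) (kf F) else 0) := by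
    intro τ e
    rw [← Finset.sum_fiberwise_of_maps_to (fun F hF => lf_cf hF)]
    refine Finset.sum_congr rfl fun f _ => Finset.sum_congr rfl fun F hF => ?_
    rw [Finset.mem_filter] at hF
    rw [mul_assoc, ite_zero_mul, gx_of, hF.2]
  simp_rw [h1]
  have h2 : ∑ τ : V0 B X → S, ∑ e : J0 X → El S P q m, ∑ f ∈ Cf Zc (Px c),
      ∑ F ∈ (Cf Zc (Elb c S q m)).filter (fun F => lf F = f),
        wt f * (if LkF G B X W T Zc f (ef (xe0 X e) F) then
          Gx G B X W T Zc f (tf (xt0 B X τ) F) (ef (xe0 X e) F) (kf F) else 0) =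
      ∑ f ∈ Cf Zc (Px c), wt f * ∑ τ : V0 B X → S, ∑ e : J0 X → El S P q m,
      ∑ F ∈ (Cf Zc (Elb c S q m)).filter (fun F => lf F = f),
        (if LkF G B X W T Zc f (ef (xe0 X e) F) then
          Gx G B X W T Zc f (tf (xt0 B X τ) F) (ef (xe0 X e) F) (kf F) else 0) := by
    simp_rw [Finset.mul_sum]
    rw [Finset.sum_comm (s := Cf Zc (Px c))]
    refine Finset.sum_congr rfl fun τ _ => ?_
    rw [Finset.sum_comm]
  rw [h2]
  refine Finset.sum_congr rfl fun f hf => ?_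
  by_cases hw : wt f = 0
  · rw [hw, zero_mul, zero_mul]
  congr 1
  have hX := hok f hf hw
  rw [rei_bij G B X W T Zc hZE hZ0 f hf (fun t e κ => if LkF G B X W T Zc f e then
    Gx G B X W T Zc f t e κ else 0)]
  -- the families
  have h3 : ∀ t : Pl K → S, ∑ e : (adf G B X W T Zc f).Jf → El S P q m,
      ∑ κ : sp Zc f → Du S q (m + 1), (if LkF G B X W T Zc f ((adf G B X W T Zc f).ee e) then
        Gx G B X W T Zc f t ((adf G B X W T Zc f).ee e) (k0 (sp Zc f) κ) else 0) =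
      ∑ η : (adf G B X W T Zc f).Jf → Du S q m × Du S q (m + 1),
        if ((adf G B X W T Zc f).Ff η ∧ (adf G B X W T Zc f).Hk η ∧
            ¬(adf G B X W T Zc f).Sv η) ∧ LkF G B X W T Zc f (e1 G B X W T Zc f η) then
          (adf G B X W T Zc f).Hh m t ((adf G B X W T Zc f).vl t) η /
            (Fintype.card S : ℂ) ^ (adf G B X W T Zc f).Vf.card else 0 := by
    intro t
    rw [← Fintype.sum_equiv (Equiv.arrowProdEquivProdArrow _ _ _).symm
      (fun z : ((adf G B X W T Zc f).Jf → Du S q m × Du S q (m + 1)) ×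
        ((adf G B X W T Zc f).Jf → SP S P) => ∑ κ : sp Zc f → Du S q (m + 1),
          if LkF G B X W T Zc f ((adf G B X W T Zc f).ee fun j => (z.1 j, z.2 j)) then
          Gx G B X W T Zc f t ((adf G B X W T Zc f).ee fun j => (z.1 j, z.2 j))
        (k0 (sp Zc f) κ) else 0) _ (fun z => rfl), Fintype.sum_prod_type]
    refine Finset.sum_congr rfl fun η _ => ?_
    have hL : ∀ x₀ : (adf G B X W T Zc f).Jf → SP S P,
        (LkF G B X W T Zc f ((adf G B X W T Zc f).ee fun j => (η j, x₀ j)) ↔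
          LkF G B X W T Zc f (e1 G B X W T Zc f η)) := fun x₀ =>
      lkf_et G B X W T Zc f _ _ (by rw [et_ee, et_e1])
    by_cases hk : LkF G B X W T Zc f (e1 G B X W T Zc f η)
    · have h4 : ∀ x₀ : (adf G B X W T Zc f).Jf → SP S P,
          ∑ κ : sp Zc f → Du S q (m + 1),
            (if LkF G B X W T Zc f ((adf G B X W T Zc f).ee fun j => (η j, x₀ j)) then
            Gx G B X W T Zc f t ((adf G B X W T Zc f).ee fun j => (η j, x₀ j))
              (k0 (sp Zc f) κ) else 0) =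
          ∑ κ : sp Zc f → Du S q (m + 1),
            Gx G B X W T Zc f t ((adf G B X W T Zc f).ee fun j => (η j, x₀ j))
              (k0 (sp Zc f) κ) := fun x₀ =>
        Finset.sum_congr rfl fun κ _ => if_pos ((hL x₀).2 hk)
      simp_rw [h4, gx_sum G B X W hp T Zc f hX t η]
      by_cases hc : (adf G B X W T Zc f).Ff η ∧ (adf G B X W T Zc f).Hk η ∧
        ¬(adf G B X W T Zc f).Sv η
      · simp_rw [if_pos hc, if_pos (And.intro hc hk)]
        rw [← Finset.sum_div]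
        congr 1
        rw [cell (adf G B X W T Zc f) hX hm t ((adf G B X W T Zc f).vl t) η]
        exact Finset.sum_congr (by ext; simp) fun _ _ => rfl
      · have hc2 : ¬(((adf G B X W T Zc f).Ff η ∧ (adf G B X W T Zc f).Hk η ∧
            ¬(adf G B X W T Zc f).Sv η) ∧ LkF G B X W T Zc f (e1 G B X W T Zc f η)) :=
          fun h => hc h.1
        simp_rw [if_neg hc]
        rw [Finset.sum_const_zero, if_neg hc2]
    · have h4 : ∀ x₀ : (adf G B X W T Zc f).Jf → SP S P,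
          ∑ κ : sp Zc f → Du S q (m + 1),
            (if LkF G B X W T Zc f ((adf G B X W T Zc f).ee fun j => (η j, x₀ j)) then
            Gx G B X W T Zc f t ((adf G B X W T Zc f).ee fun j => (η j, x₀ j))
              (k0 (sp Zc f) κ) else 0) = 0 := fun x₀ =>
        Finset.sum_eq_zero fun κ _ => if_neg fun h => hk ((hL x₀).1 h)
      have hc2 : ¬(((adf G B X W T Zc f).Ff η ∧ (adf G B X W T Zc f).Hk η ∧
          ¬(adf G B X W T Zc f).Sv η) ∧ LkF G B X W T Zc f (e1 G B X W T Zc f η)) :=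
        fun h => hk h.2
      simp_rw [h4]
      rw [Finset.sum_const_zero, if_neg hc2]
  simp_rw [h3]
  rw [Finset.sum_comm, Finset.sum_filter]
  refine Finset.sum_congr rfl fun η _ => ?_
  by_cases hc : ((adf G B X W T Zc f).Ff η ∧ (adf G B X W T Zc f).Hk η ∧
      ¬(adf G B X W T Zc f).Sv η) ∧ LkF G B X W T Zc f (e1 G B X W T Zc f η)
  · simp_rw [if_pos hc]
    rw [← Finset.sum_div]
    rfl
  · simp_rw [if_neg hc]
    rw [Finset.sum_const_zero]

section bnd

variable {S' P' : Type} [Group S'] [Group P'] [MulDistribMulAction P' S'] {J V : Type}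

private theorem n1_h [Fintype S'] (X : AD S' P' J V) (m : ℕ) (τ : V → S') (x : J → SP S' P') :
    ‖X.H m τ x‖ ≤ Fintype.card S' := by
  unfold AD.H
  rw [norm_div, norm_mul, Complex.norm_natCast, Complex.norm_natCast, Complex.norm_natCast]
  refine div_le_of_le_mul₀ (Nat.cast_nonneg _) (Nat.cast_nonneg _) ?_
  refine mul_le_mul ?_ ?_ (Nat.cast_nonneg _) (Nat.cast_nonneg _)
  · have h1 : Nat.card (gm S' (m + 1)) ≤ Nat.card S' := Subgroup.card_le_card_group _
    rw [Nat.card_eq_fintype_card (α := S')] at h1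
    exact_mod_cast h1
  · exact_mod_cast Finset.card_filter_le _ _

private theorem n1_hh [Fintype S'] {q m : ℕ} (X : AD S' P' J V) (τ : V → S')
    (x : J → SP S' P') (η : X.Jf → Du S' q m × Du S' q (m + 1)) :
    ‖X.Hh m τ x η‖ ≤ Fintype.card S' := by
  unfold AD.Hh
  rw [norm_div, Complex.norm_natCast]
  refine div_le_of_le_mul₀ (Nat.cast_nonneg _) (Nat.cast_nonneg _) ?_
  refine (norm_sum_le _ _).trans ?_
  refine (Finset.sum_le_card_nsmul _ _ (Fintype.card S' : ℝ) fun u _ => ?_).trans ?_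
  · rw [norm_mul, ep_norm, mul_one]
    exact n1_h X _ _ _
  · rw [nsmul_eq_mul, mul_comm]

end bnd

private theorem n1_sp (Zc : Finset (Pl K)) (f : Pl K → Option (Elb c S q m)) :
    sp Zc (lf f) = sp Zc f := by
  unfold sp lf
  refine Finset.filter_congr fun v _ => ?_
  rw [Ne, Option.map_eq_none_iff]

private theorem n1_y (T : ℝ)
    (Zc : Finset (Pl K)) (hZE : Disjoint Zc X.E) (f : Pl K → Option (Elb c S q m)) (v : Pl K)
    (hv : v ∈ Zc) (a : Elb c S q m) (h : f v = some a) :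
    (adx G B X W T Zc f).y (Sum.inl v) = G.y a.1 := by
  have h1 : v ∉ X.E := fun h2 => Finset.disjoint_left.1 hZE hv h2
  have h2 : (adx G B X W T Zc f).t (Sum.inl v) = il (G.y a.1) := by
    show (if v ∈ X.E then (⟨X.sv v, X.φ (W.L.t v)⟩ : SP S P) else
      (if v ∈ Zc then lf f v else none).elim 1 fun s => il (G.y s)) = _
    rw [if_neg h1, if_pos hv]
    unfold lf
    rw [h]
    rfl
  unfold AD.y
  rw [h2]
  rfl

/-- the conditions of the amplitude at the new places -/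
private theorem n1_ax [Fintype S] [Fintype P] [NeZero q] (T : ℝ)
    (Zc : Finset (Pl K)) (hZE : Disjoint Zc X.E) (τ₀ : Pl K → S) (e₀ : Pl K ⊕ Fin A.g → El S P q m)
    (b : Pl K → Option (Elb c S q m)) (v : Fin (m + 1) → Pl K)
    (hv : v ∈ H35.CF.Fr Zc (PPc X W T) b (m + 1)) (l : Fin (m + 1) → Elb c S q m)
    (h : AX G B X W T Zc τ₀ e₀ (up b v l) ≠ 0) :
    ∀ k, ∀ z : Gr S m, ((l k).2.2.2).ap (br m (G.y (l k).1) z) = 0 := by
  intro k z
  have h1 : (∀ w ∈ sp Zc (up b v l), PPc X W T w → ∀ z : Gr S m,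
      (kf (up b v l) w).ap (br m ((adx G B X W T Zc (up b v l)).y (Sum.inl w)) z) = 0) := by
    by_contra hc
    refine h ?_
    unfold AX
    rw [if_neg]
    exact fun hh => hc hh.2.1
  rw [mem_fr] at hv
  have h2 : up b v l (v k) = some (l k) := up_of b v l hv.2 k
  have h3 := h1 (v k) (by
    rw [mem_sp, h2]
    exact ⟨(hv.1 k).1, Option.some_ne_none _⟩) (hv.1 k).2.1 z
  rw [n1_y G B X W T Zc hZE (up b v l) (v k) (hv.1 k).1 (l k) h2] at h3
  have h4 : kf (up b v l) (v k) = (l k).2.2.2 := by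
    unfold kf
    rw [h2]
    rfl
  rw [h4] at h3
  exact h3

private theorem n1_axle [Fintype S] [Fintype P] [NeZero q] (T : ℝ)
    (Zc : Finset (Pl K)) (τ₀ : Pl K → S) (e₀ : Pl K ⊕ Fin A.g → El S P q m)
    (f : Pl K → Option (Elb c S q m)) :
    ‖AX G B X W T Zc τ₀ e₀ f‖ ≤ Fintype.card S := by
  unfold AX
  split_ifs with h
  · rw [norm_div, norm_pow, Complex.norm_natCast]
    refine (div_le_self (norm_nonneg _) (one_le_pow₀ ?_)).trans (n1_hh _ _ _ _)
    exact_mod_cast Fintype.card_pos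
  · rw [norm_zero]
    exact Nat.cast_nonneg _

private theorem n1_fxle [Fintype S] [Fintype P] [NeZero q] (T : ℝ)
    (Zc : Finset (Pl K)) (τ₀ : Pl K → S) (e₀ : Pl K ⊕ Fin A.g → El S P q m)
    (f : Pl K → Option (Elb c S q m)) :
    ‖FX G B X W T Zc τ₀ e₀ f‖ ≤ 1 := by
  unfold FX
  split_ifs with h
  · exact kr_le _ _ _
  · rw [norm_zero]
    exact zero_le_one

/-- a family with a linked tuple, for enriched configurations -/
theorem lkf_nl (T : ℝ) (Zc : Finset (Pl K)) (e₀ : Pl K ⊕ Fin A.g → El S P q m)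
    (f : Pl K → Option (Elb c S q m)) :
    LkF G B X W T Zc (lf f) (ef e₀ f) ↔ ∃ v ∈ Tp Zc (PPc X W T) f (m + 1),
      Lk G B X W T Zc e₀ f v := by
  constructor
  · rintro ⟨v, h1, h2, h3⟩
    refine ⟨v, ?_, h3⟩
    unfold Tp
    rw [Finset.mem_filter, Fintype.mem_piFinset]
    refine ⟨fun k => ?_, h1⟩
    rw [Finset.mem_filter, ← n1_sp]
    exact h2 k
  · rintro ⟨v, h1, h2⟩
    unfold Tp at h1
    rw [Finset.mem_filter, Fintype.mem_piFinset] at h1
    refine ⟨v, h1.2, fun k => ?_, h2⟩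
    have h3 := h1.1 k
    rw [Finset.mem_filter, ← n1_sp] at h3
    exact h3

theorem nl_iff (T : ℝ) (Zc : Finset (Pl K)) (e₀ : Pl K ⊕ Fin A.g → El S P q m)
    (f : Pl K → Option (Elb c S q m)) :
    (∃ v ∈ Tp Zc (PPc X W T) f (m + 1), Lk G B X W T Zc e₀ f v) ↔
      Nl Zc (PPc X W T) (m + 1) (Lk G B X W T Zc e₀) f ≠ 0 := by
  unfold Nl
  rw [Finset.card_ne_zero]
  constructor
  · rintro ⟨v, h1, h2⟩
    exact ⟨v, Finset.mem_filter.2 ⟨h1, h2⟩⟩
  · rintro ⟨v, hv⟩
    exact ⟨v, (Finset.mem_filter.1 hv).1, (Finset.mem_filter.1 hv).2⟩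

/-- THEOREM: the families with a linked tuple are negligible -/
theorem negL (hp : p.Prime) [Fintype S] [Fintype P] [NeZero q] (G : SG c S) (B : SD D Q A)
    (m : ℕ) (hm : 1 ≤ m) (M : ℕ) (hM : 1 ≤ M) (c₀ g₀ : ℕ) (A₁ ε : ℝ)
    (hA : 0 ≤ A₁) (hε : 0 < ε) :
    ∃ C₁ A' C : ℝ, 3 ≤ C₁ ∧ 0 ≤ A' ∧ 0 < C ∧ ∀ Y : ℝ, 3 ≤ Y →
      ∀ (k Mw : ℕ) (X : FD A P S) (W : WF A) (Zc : Finset (Pl K)), X.E.card ≤ g₀ →
        NgOk G B X W k Mw q c₀ (Real.exp (Real.log Y ^ ε)) Zc →
      ∀ ψ : ℝ → ℝ, (∀ t, |ψ t| ≤ 1) → (∀ t, 2 ≤ t → ψ t = 0) → (∀ s t, |ψ s - ψ t| ≤ |s - t|) →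
      BxF (q := q) G B X W (Real.exp (Real.log Y ^ ε)) Zc m C₁ A' Y →
      ‖NXL q G B X W (Real.exp (Real.log Y ^ ε)) Zc
        (wR X W (Real.exp (Real.log Y ^ ε)) Zc M ψ Y) m‖ ≤ C * Y * Real.log Y ^ (-A₁) := by
  have hnS : (1 : ℝ) ≤ (Fintype.card S : ℝ) := by
    exact_mod_cast Fintype.card_pos
  have hnE : (1 : ℝ) ≤ (Fintype.card (El S P q m) : ℝ) := by
    have h1 : 0 < Fintype.card (El S P q m) := Fintype.card_pos_iff.2 ⟨((0, 0), 1)⟩
    exact_mod_cast h1
  obtain ⟨C₁, A', C₀, h1, h2, h3, hb⟩ := H35.OW.ngc K (Elb c S q m) (m + 1) (Fintype.card S) A₁ ε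
    (by linarith) hA hε
  have hC : (0 : ℝ) < (Fintype.card S : ℝ) ^ (g₀ + A.g) *
      ((Fintype.card (El S P q m) : ℝ) ^ (g₀ + A.g) * C₀) := by
    have a1 : (0 : ℝ) < (Fintype.card S : ℝ) := by linarith
    have a2 : (0 : ℝ) < (Fintype.card (El S P q m) : ℝ) := by linarith
    positivity
  refine ⟨C₁, A', _, h1, h2, hC, fun Y hY k Mw X W Zc hg hok ψ hψ1 hψ2 hψ3 hbx => ?_⟩
  obtain ⟨T, hT⟩ : ∃ T, T = Real.exp (Real.log Y ^ ε) := ⟨_, rfl⟩
  rw [← hT] at hok hbx ⊢
  have hZ0 : Disjoint Zc D.S0 :=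
    Finset.disjoint_left.2 fun v hv hv' => hok.okW.zs v (hok.zc hv) hv'
  have hOkR : ∀ f : Pl K → Option (Px c), Rich X W T Zc M f →
      (adf G B X W T Zc f).Ok p k Mw q c₀ G.Pi := fun f hf =>
    adf_ok hp G B X W hok.okX hok.okW T Zc hok.ze hok.zc hok.ez f
      (fun s => le_trans hM (hf s)) hok.pP hok.pS hok.nil hok.qe hok.kM hok.mx hok.qp
  have hrich : ∀ f : Pl K → Option (Px c), wR X W T Zc M ψ Y f ≠ 0 → Rich X W T Zc M f := by
    intro f hf
    by_contra hc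
    exact hf (if_neg hc)
  rw [reiL (k := k) (Mw := Mw) (c₀ := c₀) G B X W hp T Zc hok.ze hZ0 hm _
    fun f _ hf => hOkR f (hrich f hf)]
  have hlogY : (0 : ℝ) ≤ Real.log Y ^ (-A₁) :=
    Real.rpow_nonneg (Real.log_nonneg (by linarith)) _
  have hY0 : (0 : ℝ) < Y := by linarith
  have key : ∀ (τ : V0 B X → S) (e : J0 X → El S P q m),
      ‖∑ f ∈ Cf Zc (Elb c S q m), wR X W T Zc M ψ Y (lf f) *
        (if LkF G B X W T Zc (lf f) (ef (xe0 X e) f) then
          AX G B X W T Zc (xt0 B X τ) (xe0 X e) f else 0) *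
        FX G B X W T Zc (xt0 B X τ) (xe0 X e) f‖ ≤ C₀ * Y * Real.log Y ^ (-A₁) := by
    intro τ e
    have hfa : ∀ f : Pl K → Option (Elb c S q m),
        (if LkF G B X W T Zc (lf f) (ef (xe0 X e) f) then
          AX G B X W T Zc (xt0 B X τ) (xe0 X e) f else 0) ≠ 0 →
        (∃ v ∈ Tp Zc (PPc X W T) f (m + 1), Lk G B X W T Zc (xe0 X e) f v) ∧
          AX G B X W T Zc (xt0 B X τ) (xe0 X e) f ≠ 0 := by
      intro f hf
      split_ifs at hf with h
      · exact ⟨(lkf_nl G B X W T Zc _ f).1 h, hf⟩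
      · exact absurd rfl hf
    have h5 := hb Y hY Zc (PPc X W T) (fun v hv => by rw [← hT]; exact hv.1) ψ hψ1 hψ2 hψ3
      (fun f => if LkF G B X W T Zc (lf f) (ef (xe0 X e) f) then
          AX G B X W T Zc (xt0 B X τ) (xe0 X e) f else 0)
      (FX G B X W T Zc (xt0 B X τ) (xe0 X e)) (fun f => Rich X W T Zc M (lf f))
      (Lk G B X W T Zc (xe0 X e))
      (fun b v l => (adx G B X W T Zc (up b v l)).Kx ((adx G B X W T Zc (up b v l)).et
          (ef (xe0 X e) (up b v l))) (kx G B X W T Zc (xe0 X e) (up b v l)) ∧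
        ∀ k, ∀ z : Gr S m, ((l k).2.2.2).ap (br m (G.y (l k).1) z) = 0)
      (fun f _ => by
        split_ifs
        · exact n1_axle G B X W T Zc _ _ f
        · rw [norm_zero]
          exact Nat.cast_nonneg _)
      (fun f _ => n1_fxle G B X W T Zc _ _ f)
      (fun f _ _ ha _ => (hfa f ha).1)
      (by
        intro l b hbm v hv v' hv' ho
        obtain ⟨_, o2, o3, o4, o5⟩ := ord G B X W T Zc hok.zc hok.ez hok.okW.zs hok.okW.nd
          hok.okW.lz hok.ze hok.et hok.srt (xt0 B X τ) (xe0 X e) l b hbm v v' hv hv' ho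
        refine ⟨?_, o2, o3, o5 M⟩
        rw [o4]
        refine ite_iff ?_ _ _
        rw [lkf_nl, lkf_nl, nl_iff, nl_iff, o3])
      (by
        intro l b _ v hv hr _ ha
        exact ⟨(hk_iff (adx G B X W T Zc (up b v l)) hp (hOkR _ hr) m _).1,
          n1_ax G B X W T Zc hok.ze _ _ b v hv l (hfa _ ha).2⟩)
      (by
        intro l lo hi hlh
        rw [← hT] at hlh
        have h6 := hbx τ e l lo hi hlh
        refine le_trans (le_of_eq ?_) h6
        refine Finset.sum_congr rfl fun b _ => ?_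
        refine congrArg (fun z : ℂ => (nr (sp Zc b))⁻¹ * (∏ k, lo k)⁻¹ * ‖z‖) ?_
        exact Finset.sum_congr rfl fun v _ => ite_iff (by tauto) _ _)
    refine le_trans (le_of_eq ?_) h5
    refine congrArg norm (Finset.sum_congr rfl fun f _ => ?_)
    have h6 : wR X W T Zc M ψ Y (lf f) =
        if Rich X W T Zc M (lf f) then ((ψ (nr (sp Zc f) / Y) : ℝ) : ℂ) else 0 := by
      unfold wR
      rw [n1_sp]
    rw [h6]
  have hcV : (V0 B X).card ≤ g₀ + A.g := by
    unfold V0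
    refine (Finset.card_union_le _ _).trans (Nat.add_le_add hg ?_)
    refine Finset.card_image_le.trans ?_
    rw [Finset.card_univ, Fintype.card_fin]
  have hcJ : (J0 X).card ≤ g₀ + A.g := by
    unfold H73.S3.J0
    rw [Finset.card_disjSum, Finset.card_univ, Fintype.card_fin]
    exact Nat.add_le_add_right hg _
  unfold EXL
  have hR : (0 : ℝ) ≤ C₀ * Y * Real.log Y ^ (-A₁) := by positivity
  have hE : ∀ τ : V0 B X → S, ‖∑ e : J0 X → El S P q m, ∑ f ∈ Cf Zc (Elb c S q m),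
      wR X W T Zc M ψ Y (lf f) * (if LkF G B X W T Zc (lf f) (ef (xe0 X e) f) then
        AX G B X W T Zc (xt0 B X τ) (xe0 X e) f else 0) *
        FX G B X W T Zc (xt0 B X τ) (xe0 X e) f‖ ≤
      (Fintype.card (El S P q m) : ℝ) ^ (g₀ + A.g) * (C₀ * Y * Real.log Y ^ (-A₁)) := by
    intro τ
    refine (norm_sum_le _ _).trans ?_
    refine (Finset.sum_le_card_nsmul _ _ _ fun e _ => key τ e).trans ?_
    rw [nsmul_eq_mul, Finset.card_univ, Fintype.card_fun, Fintype.card_coe]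
    push_cast
    exact mul_le_mul_of_nonneg_right (pow_le_pow_right₀ hnE hcJ) hR
  refine (norm_sum_le _ _).trans ?_
  refine (Finset.sum_le_card_nsmul _ _ _ fun τ _ => hE τ).trans ?_
  rw [nsmul_eq_mul, Finset.card_univ, Fintype.card_fun, Fintype.card_coe]
  push_cast
  refine (mul_le_mul_of_nonneg_right (pow_le_pow_right₀ hnS hcV)
    (mul_nonneg (by positivity) hR)).trans (le_of_eq ?_)
  ring

/-- the families without linked tuples are those of the quasi Lie functionals -/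
theorem nx_split (hp : p.Prime) [Fintype S] [Fintype P] [NeZero q] (G : SG c S) (B : SD D Q A)
    (X : FD A P S) (W : WF A) (m : ℕ) (hm : 1 ≤ m) (hF : Frw G q m ep) (hV : Frv G q m ep) {k Mw c₀ : ℕ}
    (T : ℝ) (Zc : Finset (Pl K)) (hZE : Disjoint Zc X.E) (hXo : X.Ok G B W) (M : ℕ)
    (hM : m + 2 ≤ M) (wt : (Pl K → Option (Px c)) → ℂ)
    (hr : ∀ f, wt f ≠ 0 → Rich X W T Zc M f)
    (hok : ∀ f, wt f ≠ 0 → (adf G B X W T Zc f).Ok p k Mw q c₀ G.Pi) :
    NX q G B X W T Zc wt m = NXL q G B X W T Zc wt m +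
      ∑ x ∈ QBs q m G X W ep, NXX G B X W T Zc wt x := by
  unfold NX NXL NXX
  rw [Finset.sum_comm, ← Finset.sum_add_distrib]
  refine Finset.sum_congr rfl fun f _ => ?_
  rw [← Finset.mul_sum, ← mul_add]
  by_cases hw : wt f = 0
  · rw [hw, zero_mul, zero_mul]
  congr 1
  have hok1 := hok f hw
  have hr1 := hr f hw
  rw [← Finset.sum_filter_add_sum_filter_not (Finset.univ.filter
    (fun η : (adf G B X W T Zc f).Jf → Du S q m × Du S q (m + 1) =>
      (adf G B X W T Zc f).Ff η ∧ (adf G B X W T Zc f).Hk η ∧ ¬(adf G B X W T Zc f).Sv η))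
    (fun η => LkF G B X W T Zc f (e1 G B X W T Zc f η)), Finset.filter_filter]
  congr 1
  rw [← Finset.sum_filter]
  have hinj : Set.InjOn (etX G B X W T Zc f) (((QBs q m G X W ep).filter fun x =>
      (adf G B X W T Zc f).Hk (etX G B X W T Zc f x) ∧
        ¬(adf G B X W T Zc f).Sv (etX G B X W T Zc f x) :
          Finset ((Px c → Du S q m) × (P → Du S q (m + 1)))) :
      Set ((Px c → Du S q m) × (P → Du S q (m + 1)))) := by
    intro x hx x' hx' h
    rw [Finset.mem_coe, Finset.mem_filter] at hx hx'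
    exact etx_inj G B X W T Zc hZE hV f (fun s => le_trans (by omega) (hr1 s)) x x' hx.1 hx'.1 h
  have himg := Finset.sum_image (f := fun η => (adf G B X W T Zc f).Mn fun τ =>
    (adf G B X W T Zc f).Hh m τ ((adf G B X W T Zc f).vl τ) η) hinj
  rw [← himg]
  symm
  refine Finset.sum_subset ?_ ?_
  · intro η hη
    obtain ⟨x, hx, rfl⟩ := Finset.mem_image.1 hη
    rw [Finset.mem_filter] at hx
    rw [Finset.mem_filter, Finset.mem_filter]
    refine ⟨⟨Finset.mem_univ _, etx_ff G B X W T Zc f x, hx.2.1, hx.2.2⟩, ?_⟩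
    rintro ⟨v, h1, h2, h3⟩
    exact h3 (etx_ulk hp G B X W T Zc hZE hXo hV f hok1 x hx.1 _ (et_e1 G B X W T Zc f _) v h2)
  · intro η hη hη'
    rw [Finset.mem_filter, Finset.mem_filter] at hη
    by_contra hne
    obtain ⟨τ, hτ⟩ : ∃ τ : Pl K → S, (adf G B X W T Zc f).Hh m τ
        ((adf G B X W T Zc f).vl τ) η ≠ 0 := by
      by_contra hc
      push Not at hc
      refine hne ?_
      unfold AD.Mn
      simp only [hc, Finset.sum_const_zero, zero_div]
    have h1 := et_e1 G B X W T Zc f η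
    obtain ⟨x, hx, hxe⟩ := dic hp G B X W T Zc hZE hXo hm hF M hM f hr1 hok1
      (e1 G B X W T Zc f η) (by rw [h1]; exact hη.1.2.1) τ ((adf G B X W T Zc f).vl τ)
      (fun j _ => H73.S3.vl_rt _ τ j) (by rw [h1]; exact hτ) (by
        intro v hv1 hv2
        by_contra hc
        exact hη.2 ⟨v, hv1, hv2, hc⟩)
    rw [h1] at hxe
    refine hη' (Finset.mem_image.2 ⟨x, Finset.mem_filter.2 ⟨hx, ?_⟩, hxe.symm⟩)
    rw [← hxe]
    exact ⟨hη.1.2.2.1, hη.1.2.2.2⟩

/-- THEOREM: up to a negligible part `NX` is the sum over the quasi Lie functionals -/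
theorem neg1 (hp : p.Prime) [Fintype S] [Fintype P] [NeZero q] (G : SG c S) (B : SD D Q A)
    (m : ℕ) (hm : 1 ≤ m) (hF : Frw G q m ep) (hV : Frv G q m ep) (M : ℕ) (hM : m + 2 ≤ M) (c₀ g₀ : ℕ)
    (A₁ ε : ℝ) (hA : 0 ≤ A₁) (hε : 0 < ε) :
    ∃ C₁ A' C : ℝ, 3 ≤ C₁ ∧ 0 ≤ A' ∧ 0 < C ∧ ∀ Y : ℝ, 3 ≤ Y →
      ∀ (k Mw : ℕ) (X : FD A P S) (W : WF A) (Zc : Finset (Pl K)), X.E.card ≤ g₀ →
        NgOk G B X W k Mw q c₀ (Real.exp (Real.log Y ^ ε)) Zc →
      ∀ ψ : ℝ → ℝ, (∀ t, |ψ t| ≤ 1) → (∀ t, 2 ≤ t → ψ t = 0) → (∀ s t, |ψ s - ψ t| ≤ |s - t|) →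
      BxF (q := q) G B X W (Real.exp (Real.log Y ^ ε)) Zc m C₁ A' Y →
      ‖NX q G B X W (Real.exp (Real.log Y ^ ε)) Zc
          (wR X W (Real.exp (Real.log Y ^ ε)) Zc M ψ Y) m -
        ∑ x ∈ QBs q m G X W ep, NXX G B X W (Real.exp (Real.log Y ^ ε)) Zc
          (wR X W (Real.exp (Real.log Y ^ ε)) Zc M ψ Y) x‖ ≤ C * Y * Real.log Y ^ (-A₁) := by
  obtain ⟨C₁, A', C, h1, h2, h3, h⟩ := negL (q := q) hp G B m hm M (by omega) c₀ g₀ A₁ ε hA hε
  refine ⟨C₁, A', C, h1, h2, h3, fun Y hY k Mw X W Zc hg hok ψ hψ1 hψ2 hψ3 hb => ?_⟩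
  have hkey := h Y hY k Mw X W Zc hg hok ψ hψ1 hψ2 hψ3 hb
  have hrich : ∀ f : Pl K → Option (Px c), wR X W (Real.exp (Real.log Y ^ ε)) Zc M ψ Y f ≠ 0 →
      Rich X W (Real.exp (Real.log Y ^ ε)) Zc M f := by
    intro f hf
    by_contra hc
    exact hf (if_neg hc)
  rw [nx_split (k := k) (Mw := Mw) (c₀ := c₀) hp G B X W m hm hF hV _ Zc hok.ze hok.okX M hM _
    hrich fun f hf => adf_ok hp G B X W hok.okX hok.okW _ Zc hok.ze hok.zc hok.ez f
      (fun s => le_trans (by omega) (hrich f hf s)) hok.pP hok.pS hok.nil hok.qe hok.kM hok.mx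
      hok.qp, add_sub_cancel_right]
  exact hkey

end H51.OW
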